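import Pool.Agent.H14.SP.Final

/-!
# MP_70b6bc_gt: holomorphic planes on which a coordinate has two finite fibres

`Pool.Agent.H14.SP.IsAut Φ Ψ`: `Φ, Ψ : ℂ² → ℂ²` are complex analytic and inverse to each other.
`Pool.Agent.H14.SP.Good p`: `p` is `c (α z + β)^d + b` or `c T_d(α z + β) + b` with `d ≥ 1`,
`c, α ≠ 0`, `T_d` the Chebyshev polynomial, or a polynomial of degree 1, 2 or 3.
-/

open scoped ContDiff

namespace Pool.Agent.Results.MP_70b6bc_gt.TwoFiniteFibres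

open Pool.Agent.H14.SP

/-- Planes `f(ℂ)` in `ℂ²`: (1) a coordinate with two finite fibres on the plane exists if and only if
the plane is equivalent to an algebraic one; (2) the form of the equivalence; (3) straight planes (prime
degree, powers, Chebyshev polynomials, degree at most three). -/
theorem result (f : ℂ → ℂ × ℂ) (hf : Differentiable ℂ f) (hinj : Function.Injective f)
    (himm : ∀ z, deriv f z ≠ 0) :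
    ((∃ (Θ Θ' : ℂ × ℂ → ℂ × ℂ) (a b : ℂ), IsAut Θ Θ' ∧ a ≠ b ∧
        {z | (Θ (f z)).1 = a}.Finite ∧ {z | (Θ (f z)).1 = b}.Finite) ↔
      ∃ (p q : Polynomial ℂ) (Φ Ψ : ℂ × ℂ → ℂ × ℂ), IsAut Φ Ψ ∧
        ∀ z, Φ (f z) = (p.eval z, q.eval z)) ∧
    (∀ (Θ Θ' : ℂ × ℂ → ℂ × ℂ) (a b : ℂ), IsAut Θ Θ' → a ≠ b →
      {z | (Θ (f z)).1 = a}.Finite → {z | (Θ (f z)).1 = b}.Finite →
      ∃ (p q : Polynomial ℂ) (Φ Ψ : ℂ × ℂ → ℂ × ℂ), IsAut Φ Ψ ∧ ContDiff ℝ ∞ Φ ∧ ContDiff ℝ ∞ Ψ ∧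
        (∀ z, (Θ (f z)).1 = p.eval z) ∧ (∀ z, Φ (f z) = (p.eval z, q.eval z)) ∧
        (∀ z w, p.eval z = p.eval w → q.eval z = q.eval w → z = w) ∧
        ∀ z, p.derivative.eval z = 0 → q.derivative.eval z ≠ 0) ∧
    ∀ (Θ Θ' : ℂ × ℂ → ℂ × ℂ) (p : ℂ → ℂ), IsAut Θ Θ' →
      (Good p ∨ ∃ P : Polynomial ℂ, P.natDegree.Prime ∧ ∀ z, p z = P.eval z) →
      (∀ z, (Θ (f z)).1 = p z) →
      ∃ Φ Ψ : ℂ × ℂ → ℂ × ℂ, IsAut Φ Ψ ∧ ContDiff ℝ ∞ Φ ∧ ContDiff ℝ ∞ Ψ ∧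
        (∀ z, Φ (f z) = (z, 0)) ∧ Φ '' Set.range f = {w | w.2 = 0} := by
  refine ⟨⟨?_, ?_⟩, ?_, ?_⟩
  · rintro ⟨Θ, Θ', a, b, hΘ, hab, ha, hb⟩
    obtain ⟨p, q, Φ, Ψ, hA, -, hval, -, -⟩ := two_fibres hf hinj himm hΘ hab ha hb
    exact ⟨p, q, Φ, Ψ, hA, hval⟩
  · rintro ⟨p, q, Φ, Ψ, hA, hval⟩
    exact fibres_of_alg hinj hA hval
  · intro Θ Θ' a b hΘ hab ha hb
    obtain ⟨p, q, Φ, Ψ, hA, hp, hval, h1, h2⟩ := two_fibres hf hinj himm hΘ hab ha hb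
    exact ⟨p, q, Φ, Ψ, hA, hA.real.1, hA.real.2, hp, hval, h1, h2⟩
  · intro Θ Θ' p hΘ hp hfst
    exact straight' f Θ Θ' p hf hinj himm hΘ hp hfst

end Pool.Agent.Results.MP_70b6bc_gt.TwoFiniteFibres
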